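import Pool.Agent.Lib.Pe4017d.Main

set_option autoImplicit false

/-!
# Strong infinite uniform spread of simple vigorous groups

For a finitely generated simple vigorous group `G` of homeomorphisms of Cantor space an element
`σ` witnesses strong infinite uniform spread exactly if it has no finite orbit.
-/

namespace Pool.Agent.Results.MP_e4017d_al.AperiodicWitness

open Pool.Agent.Lib.Pe4017d (witness no_witness perf_cantor)

/-- Cantor space. -/
abbrev Cantor := ℕ → Bool

/-- Vigorous groups of homeomorphisms of Cantor space. -/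
def Vigorous (G : Subgroup (Cantor ≃ₜ Cantor)) : Prop :=
  ∀ A B C : Set Cantor, IsClopen A → IsClopen B → IsClopen C → B ⊂ A → C ⊂ A → B.Nonempty →
    C.Nonempty → ∃ γ ∈ G, γ '' B ⊆ C ∧ ∀ x, x ∉ A → γ x = x

/-- No orbit of `σ` is finite. -/
def NoFiniteOrbit (σ : Cantor ≃ₜ Cantor) : Prop :=
  ∀ x, (Set.range fun n : ℤ => (σ ^ n) x).Infinite

/-- `σ` witnesses strong infinite uniform spread of `G`: for all `k ≥ 1` and all nontrivial
`α₁, …, α_k` in `G` some conjugate `β` of `σ` satisfies `⟨αᵢ, β⟩ = G` for all `i`. -/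
def IsWitness {G : Type} [Group G] (σ : G) : Prop :=
  ∀ k : ℕ, 1 ≤ k → ∀ α : Fin k → G, (∀ i, α i ≠ 1) →
    ∃ g : G, ∀ i, Subgroup.closure {α i, g * σ * g⁻¹} = ⊤

/-- Strong infinite uniform spread. -/
def StrongInfiniteUniformSpread (G : Type) [Group G] : Prop := ∃ σ : G, IsWitness σ

theorem closure_eq_top_iff {X : Type} [TopologicalSpace X] (G : Subgroup (X ≃ₜ X)) (a b : G) :
    Subgroup.closure {a, b} = ⊤ ↔
      G ≤ Subgroup.closure {(a : X ≃ₜ X), (b : X ≃ₜ X)} := by
  have h1 : Subgroup.map G.subtype (Subgroup.closure {a, b}) =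
      Subgroup.closure {(a : X ≃ₜ X), (b : X ≃ₜ X)} := by
    rw [MonoidHom.map_closure, Set.image_insert_eq, Set.image_singleton]
    rfl
  constructor
  · intro h x hx
    rw [← h1, h]
    exact ⟨⟨x, hx⟩, Subgroup.mem_top _, rfl⟩
  · intro h
    rw [eq_top_iff]
    intro x _
    have h2 := h x.2
    rw [← h1] at h2
    obtain ⟨y, hy, hy'⟩ := h2
    have h3 : y = x := Subtype.ext hy'
    rwa [h3] at hy

theorem closure_conj_iff {X : Type} [TopologicalSpace X] (G : Subgroup (X ≃ₜ X)) (a g s : G) :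
    Subgroup.closure {a, g * s * g⁻¹} = ⊤ ↔ G ≤ Subgroup.closure
      {(a : X ≃ₜ X), (g : X ≃ₜ X) * (s : X ≃ₜ X) * (g : X ≃ₜ X)⁻¹} := by
  rw [closure_eq_top_iff, Subgroup.coe_mul, Subgroup.coe_mul, Subgroup.coe_inv]

theorem isWitness_iff (G : Subgroup (Cantor ≃ₜ Cantor)) (hfg : G.FG) (hsimple : IsSimpleGroup G)
    (hvig : Vigorous G) (σ : G) : IsWitness σ ↔ NoFiniteOrbit (σ : Cantor ≃ₜ Cantor) := by
  constructor
  · intro hw x hx
    obtain ⟨k, α, hk, hα, hne, h⟩ := no_witness (G := G) perf_cantor hvig (σ := (σ : Cantor ≃ₜ Cantor))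
      (x := x) hx
    obtain ⟨g, hg⟩ := hw k hk (fun i => ⟨α i, hα i⟩) (fun i hi => hne i (congrArg Subtype.val hi))
    obtain ⟨i, hi⟩ := h (g : Cantor ≃ₜ Cantor) g.2
    apply hi
    exact (closure_conj_iff G ⟨α i, hα i⟩ g σ).mp (hg i)
  · intro hσ k _ α hα
    obtain ⟨g, hg, hgen⟩ := witness perf_cantor hvig hsimple hfg (σ := (σ : Cantor ≃ₜ Cantor)) σ.2 hσ
      (fun i => (α i : Cantor ≃ₜ Cantor)) (fun i => (α i).2)
      (fun i hi => hα i (Subtype.ext hi))
    exact ⟨⟨g, hg⟩, fun i => (closure_conj_iff G (α i) ⟨g, hg⟩ σ).mpr (hgen i)⟩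

/-- **Main theorem.** Let `G` be a finitely generated simple vigorous group of homeomorphisms of
Cantor space. An element of `G` witnesses strong infinite uniform spread if and only if it has no
finite orbit. In particular `G` has strong infinite uniform spread if and only if some element of
`G` has no finite orbit. -/
theorem result (G : Subgroup (Cantor ≃ₜ Cantor)) (hfg : G.FG) (hsimple : IsSimpleGroup G)
    (hvig : Vigorous G) :
    (∀ σ : G, IsWitness σ ↔ NoFiniteOrbit (σ : Cantor ≃ₜ Cantor)) ∧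
    (StrongInfiniteUniformSpread G ↔ ∃ σ ∈ G, NoFiniteOrbit σ) := by
  refine ⟨isWitness_iff G hfg hsimple hvig, ?_, ?_⟩
  · rintro ⟨σ, hσ⟩
    exact ⟨σ, σ.2, (isWitness_iff G hfg hsimple hvig σ).mp hσ⟩
  · rintro ⟨σ, hσG, hσ⟩
    exact ⟨⟨σ, hσG⟩, (isWitness_iff G hfg hsimple hvig ⟨σ, hσG⟩).mpr hσ⟩

end Pool.Agent.Results.MP_e4017d_al.AperiodicWitness
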